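import Pool.Agent.T6.H87.TG.Main

/-!
# The 2-to-1 games conjecture with perfect completeness for circuits with few negations

Randomised circuits get a 2-to-1 game with `N + N` vertices and alphabet `[q]` by bits: the bit of the
position `(u, v, π)` tells whether the game has an edge from `u` to `v` with the constraint `π`. The
gates compute arbitrary nondecreasing real functions of at most two values, apart from a few free
gates, which may compute any function of threshold bits of their inputs. For instance a NOT gate is
a free gate with one input. The freedom of the circuit is the product of the numbers
`1 + (number of inputs)` over the free gates; it is `2 ^ k` for `k` NOT gates.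

Result: for all `δ > 0` there are `q` and `c` such that circuits of freedom at most `F` that tell the
games of value at most `δ` from those of value one need size `2 ^ (N ^ (1 / (48 F)))` if `N ≥ c ^ F`.
This is superpolynomial for `F = o(log N / log log N)`, so for `log log N - log log log N - ω(1)` NOT
gates.  Without free gates this is the starting result `MonotoneCircuits`.

Proof.  The hard instances of `Pool/Agent/H589R3/DT` are random copies of one game in a blow-up of its
vertices (value at most `δ`) and the sets of all constraints that are satisfied by a random partial
labeling of the blow-up (value one).  We take `4 F` disjoint blow-ups, where the vertices of each are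
multiplied by `L ^ 11` times the number for the one before, and one more edge.  The blow-ups are
filled one after the other with instances of value one.  At some step few circuits change a
threshold bit of a free gate (each circuit can do this at most `F` times), so that the free gates can
be fixed.  Since a filling of the next blow-up has many more edges than all blow-ups before, the
union has value at most `δ` if it is a copy of the game, although the blow-ups before have value
one; and it has value one if the next blow-up has.  So the circuits with fixed free gates, which are
monotone, have to tell these two distributions on the next blow-up, and this contradicts the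
approximation theorem of `H589R3/DT` for the blow-up.
-/

set_option autoImplicit false

namespace Pool.Agent.Results.MP_ec946a_lc.FewNegations

open Pool.Agent.T6.H87.TG

/-- For all `δ > 0` there are `q ≥ 1` and `c` such that for all `F ≥ 1` and `N ≥ c ^ F`: if a nonempty
finite family of circuits of freedom at most `F` accepts each 2-to-1 game (with `N + N` vertices and
alphabet `[q]`) of value at most `δ` with probability at least `3 / 4` and each of value one with
probability at most `1 / 4`, then it has a member of size at least `2 ^ (N ^ (1 / (48 F)))`. -/
theorem result (δ : ℝ) (hδ : 0 < δ) :
    ∃ q c : ℕ, 1 ≤ q ∧ ∀ F : ℕ, 1 ≤ F → ∀ N : ℕ, c ^ F ≤ N →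
      ∀ (R : Type) [Finite R] [Nonempty R] (C : R → Circuit (Position N q)),
        (∀ r, (C r).freedom ≤ F) →
        (∀ x, ValueAtMost δ x → 3 / 4 ≤ acceptance C x) →
        (∀ x, ValueOne x → acceptance C x ≤ 1 / 4) →
        ∃ r, (2 : ℝ) ^ ((N : ℝ) ^ (1 / (48 * (F : ℝ)))) ≤ (C r).size := by
  obtain ⟨q, c, hq, h⟩ := few_free δ hδ
  refine ⟨q, c, hq, fun F hF N hN R _ _ C h1 h2 h3 => ?_⟩
  let _ : Fintype R := Fintype.ofFinite R
  exact h F hF N hN R C h1 fun x => ⟨h2 x, h3 x⟩

end Pool.Agent.Results.MP_ec946a_lc.FewNegations
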