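import Pool.Agent.T6.H47.SS.Proc
import Pool.Agent.T6.H47.SS.Pot

/-!
# Labelings of 2-to-1 games from a forest and few linear forms

A satisfiable unique game is solved by propagation along a spanning forest: the labels depend only
on the constraints of the edges of the forest, and all the edges are satisfied. The theorem says that
nothing of this kind works for 2-to-1 games with perfect completeness.

The games are the square games on a known constraint graph: the labels are the elements of `ZMod q`
and the edge `e` with the shift `c e` carries the 2-to-1 map `a ↦ (a + c e) ^ 2`. A random labeling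
rule (`Rule`) assigns to each shift vector `c` a probability distribution on the labelings. The rule
may be arbitrary, except that for each edge `e` the joint law of the two labels at the ends of `e` is
determined by the shifts of the edges of a forest `F e` and by the values of `T` linear forms of `c`
(`Local`); forests and forms are arbitrary and depend on `e`. No consistency between different edges
is assumed, and the rule may depend on the graph (shared randomness, unlimited computation,
non-signaling correlations).

* For `δ ≤ 1/2`, `q ≥ 8 / δ ^ 6` and every graph of girth larger than `4 t + 4` with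
  `δ ^ 2 |E| ≥ 3 (|U| + |V| + 1)`, a rule which satisfies, in expectation, a fraction `δ` of the edges
  of each square game of value one has `2 ^ (t / (log₂ q + 4)) ≤ 2 (log₂ q + 6) (T + 1) ^ 2`.
* Some graphs on `N + N` vertices with at most `15 N / δ ^ 2` edges force
  `N ^ (1 / (74 log (1/δ) log q)) ≤ 6 (log q) (T + 1) ^ 2`.
* For unique games one forest for all the edges and `T = 0` suffice to satisfy all the edges, on
  every graph.

Proof. Compare uniform shifts with the planted shifts `c e = ε e * w (d e) - x (s e)`, with uniform
signs `ε`. Let `e` be an edge. The forms seen at `e` which annihilate all the planted shifts for the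
signs `ε` are signed flows on the graph; since no signed flow lives on a forest, they form a space of
dimension at most `T + 1`. By the count of the linear sketches (`Pool/Agent/T6/H63/SK`) the mean
number of those which are orthogonal also to the planted shifts for other signs `ε'` is less than
`1.1`, hence the chi-square distance of the two distributions, as seen from `e`, is less than `0.1`.
So the probability `y` that `e` is satisfied for uniform shifts becomes at most `y + (0.1 y) ^ (1/2)`
for planted shifts, and the mean of `y` over the edges is at most `δ ^ 2 + 1 / q`, because a random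
square game has value at most `δ ^ 2` with high probability.
-/

set_option autoImplicit false

namespace Pool.Agent.Results.MP_ec946a_lc.ForestLabelings

open Finset

/-- A 2-to-1 game with label set `ZMod q` on both sides: the edge `e` joins `s e` and `d e` and
carries a map all of whose fibers have at most two elements. -/
structure Game (q : ℕ) [NeZero q] (U V E : Type) where
  s : E → U
  d : E → V
  map : E → ZMod q → ZMod q
  two : ∀ e b, (univ.filter fun a => map e a = b).card ≤ 2

/-- The number of edges satisfied by the labeling `x`, `y`. -/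
def Game.sat {q : ℕ} [NeZero q] {U V E : Type} [Fintype E] (G : Game q U V E)
    (x : U → ZMod q) (y : V → ZMod q) : ℕ :=
  (univ.filter fun e => G.map e (x (G.s e)) = y (G.d e)).card

/-- The value is one. -/
def Game.ValueOne {q : ℕ} [NeZero q] {U V E : Type} [Fintype E] (G : Game q U V E) : Prop :=
  ∃ x y, G.sat x y = Fintype.card E

/-- The square game with shifts `c`. -/
def squareGame {q : ℕ} [Fact q.Prime] {U V E : Type} (s : E → U) (d : E → V) (c : E → ZMod q) :
    Game q U V E where
  s := s
  d := d
  map e a := (a + c e) ^ 2
  two e b := by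
    have := Pool.Agent.T6.H63.SK.two_roots (c e) b
    simpa [add_comm] using this

/-- The unique game with shifts `c`. -/
def shiftGame {q : ℕ} [NeZero q] {U V E : Type} (s : E → U) (d : E → V) (c : E → ZMod q) :
    Game q U V E where
  s := s
  d := d
  map e a := a + c e
  two e b := by
    have : (univ.filter fun a : ZMod q => a + c e = b) ⊆ {b - c e} := by
      intro a ha
      rw [mem_filter] at ha
      rw [mem_singleton, ← ha.2]
      ring
    exact (card_le_card this).trans (by simp)

/-- The bipartite graph of the edges in `F`: the vertices `s e` and `d e` are adjacent for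
`e ∈ F`. -/
def constraintGraph {U V E : Type} (s : E → U) (d : E → V) (F : Set E) : SimpleGraph (U ⊕ V) :=
  SimpleGraph.fromRel fun a b => ∃ e ∈ F, a = Sum.inl (s e) ∧ b = Sum.inr (d e)

/-- A random labeling rule: a probability distribution on the labelings for each shift vector. -/
structure Rule (q : ℕ) [NeZero q] (U V E : Type) [Fintype U] [Fintype V] [DecidableEq U]
    [DecidableEq V] where
  law : (E → ZMod q) → (U → ZMod q) × (V → ZMod q) → ℝ
  nonneg : ∀ c L, 0 ≤ law c L
  sum_one : ∀ c, ∑ L, law c L = 1

section

variable {q : ℕ} [NeZero q] {U V E : Type} [Fintype U] [Fintype V] [DecidableEq U] [DecidableEq V]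

/-- The probability that the ends of `e` get the labels `x` and `y`, for the shifts `c`. -/
def Rule.pair (R : Rule q U V E) (s : E → U) (d : E → V) (e : E) (c : E → ZMod q)
    (x y : ZMod q) : ℝ :=
  ∑ L ∈ univ.filter (fun L => L.1 (s e) = x ∧ L.2 (d e) = y), R.law c L

/-- The joint law of the labels at the ends of `e` is determined by the shifts of the edges in `F`
and by the values of the linear forms `a j`. -/
def Rule.SeesAt [Fintype E] (R : Rule q U V E) (s : E → U) (d : E → V) (e : E) (F : Set E)
    {T : ℕ} (a : Fin T → E → ZMod q) : Prop :=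
  ∀ c c' : E → ZMod q, (∀ f ∈ F, c f = c' f) →
    (∀ j, ∑ f, a j f * c f = ∑ f, a j f * c' f) →
    ∀ x y, R.pair s d e c x y = R.pair s d e c' x y

/-- For each edge `e` the joint law of the labels at its ends is determined by the shifts of the
edges of a forest and by the values of `T` linear forms. -/
def Rule.Local [Fintype E] (R : Rule q U V E) (s : E → U) (d : E → V) (T : ℕ) : Prop :=
  ∃ (F : E → Set E) (a : E → Fin T → E → ZMod q),
    ∀ e, (constraintGraph s d (F e)).IsAcyclic ∧ R.SeesAt s d e (F e) (a e)

/-- The expected number of satisfied edges of the game `G`, for the shifts `c`. -/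
def Rule.mean [Fintype E] (R : Rule q U V E) (c : E → ZMod q) (G : Game q U V E) : ℝ :=
  ∑ L, R.law c L * (G.sat L.1 L.2 : ℝ)

end

theorem graph_eq {U V E : Type} (s : E → U) (d : E → V) (F : Set E) :
    constraintGraph s d F = Pool.Agent.T6.H63.LD.gr s d F := by
  ext a b
  rw [constraintGraph, SimpleGraph.fromRel_adj]
  constructor
  · rintro ⟨-, ⟨e, h0, h1, h2⟩ | ⟨e, h0, h1, h2⟩⟩
    · exact ⟨e, h0, Or.inl ⟨h1, h2⟩⟩
    · exact ⟨e, h0, Or.inr ⟨h2, h1⟩⟩
  · rintro ⟨e, h0, ⟨h1, h2⟩ | ⟨h1, h2⟩⟩
    · refine ⟨?_, Or.inl ⟨e, h0, h1, h2⟩⟩
      rw [h1, h2]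
      simp
    · refine ⟨?_, Or.inr ⟨e, h0, h2, h1⟩⟩
      rw [h1, h2]
      simp

theorem valueOne_of {q : ℕ} [NeZero q] {U V E : Type} [Fintype E] (G : Game q U V E)
    (x : U → ZMod q) (y : V → ZMod q) (h : ∀ e, G.map e (x (G.s e)) = y (G.d e)) :
    G.sat x y = Fintype.card E := by
  unfold Game.sat
  rw [card_eq_iff_eq_univ, filter_eq_self]
  intro e _
  exact h e

/-- Labelings of 2-to-1 games with perfect completeness from a forest and few linear forms.

1. Let `0 < δ ≤ 1/2`, let `q ≥ 8 / δ ^ 6` be a prime, and let the constraint graph be without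
parallel edges, of girth larger than `4 t + 4` and with `δ ^ 2 |E| ≥ 3 (|U| + |V| + 1)`. If a random
labeling rule such that the joint law of the labels at the ends of each edge is determined by the
shifts of a forest and by `T` linear forms satisfies, in expectation, at least a fraction `δ` of the
edges of every square game of value one, then
`2 ^ (t / (log₂ q + 4)) ≤ 2 (log₂ q + 6) (T + 1) ^ 2`.

2. Consequently, for all `0 < δ ≤ 1/2` and `N ≥ δ ^ (-26)` there is a constraint graph on `N + N`
vertices with at most `15 N / δ ^ 2` edges such that for every prime `q ≥ 8 / δ ^ 6` every such rule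
has `N ^ (1 / (74 log (1/δ) log q)) ≤ 6 (log q) (T + 1) ^ 2`.

3. For unique games, on every graph without parallel edges: there are a forest and a rule such that
the joint law of the labels at the ends of every edge is determined by the shifts of the edges of the
forest, and the rule satisfies all the edges of every unique game of value one. -/
theorem result :
    (∀ (U V E : Type) [Fintype U] [Fintype V] [Fintype E] [DecidableEq U] [DecidableEq V]
      (s : E → U) (d : E → V) (t : ℕ) (δ : ℝ) (q : ℕ) [Fact q.Prime],
      (∀ e e', s e = s e' → d e = d e' → e = e') →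
      ((4 * t + 4 : ℕ) : ℕ∞) < (constraintGraph s d Set.univ).egirth →
      0 < δ → δ ≤ 1 / 2 →
      3 * ((Fintype.card U : ℝ) + Fintype.card V + 1) ≤ δ ^ 2 * Fintype.card E →
      8 / δ ^ 6 ≤ (q : ℝ) →
      ∀ (T : ℕ) (R : Rule q U V E), R.Local s d T →
        (∀ c, (squareGame s d c).ValueOne →
          δ * Fintype.card E ≤ R.mean c (squareGame s d c)) →
        (2 : ℝ) ^ (t / (Real.logb 2 q + 4)) ≤ 2 * (Real.logb 2 q + 6) * ((T : ℝ) + 1) ^ 2) ∧
    (∀ (δ : ℝ) (N : ℕ), 0 < δ → δ ≤ 1 / 2 → 1 / δ ^ 26 ≤ (N : ℝ) →
      ∃ H : Finset (Fin N × Fin N), (H.card : ℝ) ≤ 15 * N / δ ^ 2 ∧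
        ∀ (q : ℕ) [Fact q.Prime], 8 / δ ^ 6 ≤ (q : ℝ) →
        ∀ (T : ℕ) (R : Rule q (Fin N) (Fin N) H),
          R.Local (fun e : H => e.1.1) (fun e : H => e.1.2) T →
          (∀ c : H → ZMod q,
            (squareGame (fun e : H => e.1.1) (fun e : H => e.1.2) c).ValueOne →
            δ * H.card ≤ R.mean c (squareGame (fun e : H => e.1.1) (fun e : H => e.1.2) c)) →
          (N : ℝ) ^ (1 / (74 * Real.log (1 / δ) * Real.log q)) ≤
            6 * Real.log q * ((T : ℝ) + 1) ^ 2) ∧
    (∀ (U V E : Type) [Fintype U] [Fintype V] [Fintype E] [DecidableEq U] [DecidableEq V]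
      (s : E → U) (d : E → V) (q : ℕ) [NeZero q],
      (∀ e e', s e = s e' → d e = d e' → e = e') →
      ∃ (F : Set E) (R : Rule q U V E), (constraintGraph s d F).IsAcyclic ∧
        (∀ e, R.SeesAt s d e F (fun j : Fin 0 => j.elim0)) ∧
        ∀ c, (shiftGame s d c).ValueOne → R.mean c (shiftGame s d c) = Fintype.card E) := by
  classical
  refine ⟨?_, ?_, ?_⟩
  · intro U V E _ _ _ _ _ s d t δ q _ hinj hg hδ hδ1 hm hq T R hR hyes
    rw [graph_eq] at hg
    obtain ⟨F, a, hFa⟩ := hR
    have h := Pool.Agent.T6.H47.SS.process5 hinj t hg hδ hδ1 hm hq T R.law R.nonneg R.sum_one F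
      (fun e => by
        rw [← graph_eq]
        exact (hFa e).1) a (fun e c c' hc hcf x y => (hFa e).2 c c' hc hcf x y) (by
        rintro c ⟨x, y, hxy⟩
        have h1 := hyes c ⟨x, y, valueOne_of _ x y hxy⟩
        refine h1.trans (le_of_eq ?_)
        unfold Rule.mean Game.sat squareGame
        refine sum_congr rfl fun L _ => ?_
        congr)
    push_cast at h
    exact h
  · intro δ N hδ hδ1 hN
    obtain ⟨H, hH1, hH2⟩ := Pool.Agent.T6.H47.SS.lower_graph5 hδ hδ1 N hN
    refine ⟨H, hH1, ?_⟩
    intro q _ hq T R hR hyes
    obtain ⟨F, a, hFa⟩ := hR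
    have h := hH2 q hq T R.law R.nonneg R.sum_one F
      (fun e => by
        rw [← graph_eq]
        exact (hFa e).1) a (fun e c c' hc hcf x y => (hFa e).2 c c' hc hcf x y) (by
        rintro c ⟨x, y, hxy⟩
        have h1 := hyes c ⟨x, y, valueOne_of _ x y hxy⟩
        rw [Fintype.card_coe]
        refine h1.trans (le_of_eq ?_)
        unfold Rule.mean Game.sat squareGame
        refine sum_congr rfl fun L _ => ?_
        congr)
    have hlog : 37 * Real.log (1 / δ ^ 2) * Real.log q = 74 * Real.log (1 / δ) * Real.log q := by
      rw [← one_div_pow, Real.log_pow]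
      push_cast
      ring
    rw [hlog] at h
    push_cast at h
    exact h
  · intro U V E _ _ _ _ _ s d q _ hinj
    obtain ⟨F, hF, hspan⟩ := Pool.Agent.T6.H47.SS.spanning s d
    have hex : ∀ c : E → ZMod q, ∃ L : (U → ZMod q) × (V → ZMod q),
        ∀ e ∈ F, L.1 (s e) + c e = L.2 (d e) := by
      intro c
      obtain ⟨x, y, hxy⟩ := Pool.Agent.T6.H47.SS.forest_labels hinj hF c
      exact ⟨(x, y), hxy⟩
    choose lab hlab using hex
    let cut : (E → ZMod q) → E → ZMod q := fun c f => if f ∈ F then c f else 0
    let R : Rule q U V E :=
      { law := fun c L => if L = lab (cut c) then 1 else 0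
        nonneg := fun c L => by split_ifs <;> norm_num
        sum_one := fun c => by simp }
    refine ⟨F, R, by rw [graph_eq]; exact hF, ?_, ?_⟩
    · intro e c c' hc _ x y
      have h1 : cut c = cut c' := by
        funext f
        simp only [cut]
        split_ifs with hf
        · exact hc f hf
        · rfl
      unfold Rule.pair
      simp only [R, h1]
    · rintro c ⟨x, y, hxy⟩
      have hall : ∀ e, x (s e) + c e = y (d e) := by
        unfold Game.sat at hxy
        rw [card_eq_iff_eq_univ, filter_eq_self] at hxy
        intro e
        exact hxy e (mem_univ e)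
      have hsat : (shiftGame s d c).sat (lab (cut c)).1 (lab (cut c)).2 = Fintype.card E := by
        refine valueOne_of _ _ _ fun e => ?_
        refine hspan (ZMod q) c (lab (cut c)).1 x (lab (cut c)).2 y ?_ hall e
        intro f hf
        have h2 := hlab (cut c) f hf
        simp only [cut, if_pos hf] at h2
        exact h2
      unfold Rule.mean
      simp only [R]
      rw [sum_eq_single (lab (cut c))]
      · rw [if_pos rfl, one_mul, hsat]
      · intro L _ hL
        rw [if_neg hL, zero_mul]
      · intro h
        exact absurd (mem_univ _) h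

end Pool.Agent.Results.MP_ec946a_lc.ForestLabelings
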