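import Pool.Agent.T6.H63.SK.Host

/-!
Linear sketches of 2-to-1 games with perfect completeness.

The games are the square games on a known constraint graph: the labels are the elements of `ZMod q`,
`q` an odd prime, and the edge `e` with shift `c e` carries the 2-to-1 map `a ↦ (a + c e) ^ 2`.
A linear sketch keeps the values of `T` linear forms of the shift vector `c : E → ZMod q`; the forms
are chosen at random before the input is seen, and the decision is an arbitrary function of the
values. (For unique games, with the maps `a ↦ a + c e`, a single random form separates the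
satisfiable games from all others.) The theorem says that for square games `T` must be polynomially
large even to separate value `1` from value at most `δ`.

Proof (`Pool/Agent/T6/H63/SK`). Compare uniform shifts with the planted shifts
`c e = ε e * w (d e) - x (s e)`, with uniform signs `ε`. For fixed signs the planted shifts form a
linear space, so the chi-square distance of the two sketches is
`𝔼 |A ∩ F ε ∩ F ε'| - 1`, where `A` is the span of the forms and `F ε` is the space orthogonal to
the planted shifts. The elements of `F ε ∩ F ε'` are flows on the graph in which each vertex `v` of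
`V` is split into two according to the places where `ε` and `ε'` agree. An element which touches `k`
vertices of `V` survives with probability at most `2 ^ (-k)`, which handles the `q ^ T` elements
which touch many vertices. The others live over a small set `V₀` of vertices. If the space of the
split flows over `V₀` has dimension `k`, then its support contains `k / (log₂ |V₀| + 2)` disjoint
paths with `t` inner vertices in `V` which are not separated by the split: the non-backtracking
walks of this length from one edge end in different vertices because the girth is large, so one of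
them passes at most `log₂ |V₀|` branchings. Each path is determined by its ends and survives with
probability `2 ^ (-t)`.
-/

namespace Pool.Agent.Results.MP_ec946a_lc.LinearSketches

open Finset

/-- A 2-to-1 game with label set `ZMod q` on both sides: the edge `e` joins `s e` and `d e` and
carries a map all of whose fibers have at most two elements. -/
structure Game (q : ℕ) [NeZero q] (U V E : Type) where
  s : E → U
  d : E → V
  map : E → ZMod q → ZMod q
  two : ∀ e b, (univ.filter fun a => map e a = b).card ≤ 2

/-- The number of edges satisfied by the labeling `x`, `y`. -/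
def Game.sat {q : ℕ} [NeZero q] {U V E : Type} [Fintype E] (G : Game q U V E)
    (x : U → ZMod q) (y : V → ZMod q) : ℕ :=
  (univ.filter fun e => G.map e (x (G.s e)) = y (G.d e)).card

/-- The value is one. -/
def Game.ValueOne {q : ℕ} [NeZero q] {U V E : Type} [Fintype E] (G : Game q U V E) : Prop :=
  ∃ x y, G.sat x y = Fintype.card E

/-- The value is at most `δ`. -/
def Game.ValueLe {q : ℕ} [NeZero q] {U V E : Type} [Fintype E] (G : Game q U V E) (δ : ℝ) : Prop :=
  ∀ x y, (G.sat x y : ℝ) ≤ δ * Fintype.card E

/-- The square game with shifts `c`. -/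
def squareGame {q : ℕ} [Fact q.Prime] {U V E : Type} (s : E → U) (d : E → V) (c : E → ZMod q) :
    Game q U V E where
  s := s
  d := d
  map e a := (a + c e) ^ 2
  two e b := by
    have := Pool.Agent.T6.H63.SK.two_roots (c e) b
    simpa [add_comm] using this

/-- A randomised linear sketch with `T` linear forms: a probability distribution on a finite set,
and for each outcome `T` linear forms of the shift vector and a decision rule. -/
structure Sketch (q : ℕ) (E : Type) (T : ℕ) where
  Ω : Type
  fin : Fintype Ω
  prob : Ω → ℝ
  nonneg : ∀ o, 0 ≤ prob o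
  sum_one : ∑ o, prob o = 1
  form : Ω → Fin T → E → ZMod q
  acc : Ω → (Fin T → ZMod q) → Prop

open Classical in
/-- The probability that the sketch accepts the shifts `c`. -/
noncomputable def Sketch.accept {q : ℕ} {E : Type} [Fintype E] {T : ℕ} (R : Sketch q E T)
    (c : E → ZMod q) : ℝ :=
  letI := R.fin
  ∑ o, R.prob o * if R.acc o (fun j => ∑ e, R.form o j e * c e) then 1 else 0

/-- The sketch distinguishes, with error at most `1/3`, the square games of value `1` from the
square games of value at most `δ`. -/
def Decides {q : ℕ} [Fact q.Prime] {U V E : Type} [Fintype E] {T : ℕ} (R : Sketch q E T)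
    (s : E → U) (d : E → V) (δ : ℝ) : Prop :=
  (∀ c, (squareGame s d c).ValueOne → 2 / 3 ≤ R.accept c) ∧
    ∀ c, (squareGame s d c).ValueLe δ → R.accept c ≤ 1 / 3

/-- The constraint graph: the bipartite graph in which `s e` and `d e` are adjacent. -/
def constraintGraph {U V E : Type} (s : E → U) (d : E → V) : SimpleGraph (U ⊕ V) :=
  SimpleGraph.fromRel fun a b => ∃ e, a = Sum.inl (s e) ∧ b = Sum.inr (d e)

theorem graph_eq {U V E : Type} (s : E → U) (d : E → V) :
    constraintGraph s d = Pool.Agent.T6.H63.LD.gr s d Set.univ := by
  ext a b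
  rw [constraintGraph, SimpleGraph.fromRel_adj]
  constructor
  · rintro ⟨-, ⟨e, h1, h2⟩ | ⟨e, h1, h2⟩⟩
    · exact ⟨e, Set.mem_univ _, Or.inl ⟨h1, h2⟩⟩
    · exact ⟨e, Set.mem_univ _, Or.inr ⟨h2, h1⟩⟩
  · rintro ⟨e, -, ⟨h1, h2⟩ | ⟨h1, h2⟩⟩
    · refine ⟨?_, Or.inl ⟨e, h1, h2⟩⟩
      rw [h1, h2]
      simp
    · refine ⟨?_, Or.inr ⟨e, h2, h1⟩⟩
      rw [h1, h2]
      simp

/-- Linear sketches of 2-to-1 games with perfect completeness.

1. Let `0 < δ ≤ 1/4`, let `q ≥ 8 / δ ^ 3` be a prime, and let the constraint graph be without
parallel edges, of girth larger than `4 t + 4` and with `δ |E| ≥ 3 (|U| + |V| + 1)`. Every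
randomised linear sketch with `T` forms which distinguishes the square games of value `1` from the
square games of value at most `δ` satisfies
`2 ^ (t / (log₂ q + 4)) ≤ 2 (log₂ q + 6) T ^ 2`.

2. Consequently, for all `0 < δ ≤ 1/4` and `N ≥ δ ^ (-13)` there is a constraint graph on `N + N`
vertices with at most `15 N / δ` edges such that for every prime `q ≥ 8 / δ ^ 3` every such sketch
satisfies `N ^ (1 / (37 log (1/δ) log q)) ≤ 6 (log q) T ^ 2`. -/
theorem result :
    (∀ (U V E : Type) [Fintype U] [Fintype V] [Fintype E] (s : E → U) (d : E → V)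
      (t : ℕ) (δ : ℝ) (q : ℕ) [Fact q.Prime],
      (∀ e e', s e = s e' → d e = d e' → e = e') →
      ((4 * t + 4 : ℕ) : ℕ∞) < (constraintGraph s d).egirth →
      0 < δ → δ ≤ 1 / 4 →
      3 * ((Fintype.card U : ℝ) + Fintype.card V + 1) ≤ δ * Fintype.card E →
      8 / δ ^ 3 ≤ (q : ℝ) →
      ∀ (T : ℕ) (R : Sketch q E T), Decides R s d δ →
        (2 : ℝ) ^ (t / (Real.logb 2 q + 4)) ≤ 2 * (Real.logb 2 q + 6) * (T : ℝ) ^ 2) ∧
    (∀ (δ : ℝ) (N : ℕ), 0 < δ → δ ≤ 1 / 4 → 1 / δ ^ 13 ≤ (N : ℝ) →
      ∃ H : Finset (Fin N × Fin N), (H.card : ℝ) ≤ 15 * N / δ ∧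
        ∀ (q : ℕ) [Fact q.Prime], 8 / δ ^ 3 ≤ (q : ℝ) → ∀ (T : ℕ) (R : Sketch q H T),
          Decides R (fun e : H => e.1.1) (fun e : H => e.1.2) δ →
          (N : ℝ) ^ (1 / (37 * Real.log (1 / δ) * Real.log q)) ≤
            6 * Real.log q * (T : ℝ) ^ 2) := by
  classical
  have hone : ∀ {q : ℕ} [Fact q.Prime] {U V E : Type} [Fintype E] (s : E → U) (d : E → V)
      (c : E → ZMod q), (∃ (x : U → ZMod q) (y : V → ZMod q),
        ∀ e, (x (s e) + c e) ^ 2 = y (d e)) → (squareGame s d c).ValueOne := by
    intro q _ U V E _ s d c ⟨x, y, h⟩
    refine ⟨x, y, ?_⟩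
    unfold Game.sat
    rw [card_eq_iff_eq_univ, filter_eq_self]
    intro e _
    exact h e
  refine ⟨?_, ?_⟩
  · intro U V E _ _ _ s d t δ q _ hinj hg hδ hδ1 hm hq T R hR
    rw [graph_eq] at hg
    let _ := R.fin
    refine Pool.Agent.T6.H63.SK.lower2 hinj t hg hδ hδ1 hm hq T R.prob R.nonneg R.sum_one
      R.form R.acc ?_ ?_
    · intro c hc
      have h1 := hR.1 c (hone s d c hc)
      unfold Sketch.accept at h1
      convert h1
    · intro c hc
      have h1 := hR.2 c (by
        intro x y
        refine le_trans (le_of_eq ?_) (hc x y)
        unfold Game.sat squareGame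
        congr!)
      unfold Sketch.accept at h1
      convert h1
  · intro δ N hδ hδ1 hN
    obtain ⟨H, hH, hlow⟩ := Pool.Agent.T6.H63.SK.lower_graph2 hδ hδ1 N hN
    refine ⟨H, hH, ?_⟩
    intro q _ hq T R hR
    let _ := R.fin
    refine hlow q hq T R.Ω R.prob R.nonneg R.sum_one R.form R.acc ?_ ?_
    · intro c hc
      have h1 := hR.1 c (hone _ _ c hc)
      unfold Sketch.accept at h1
      convert h1
    · intro c hc
      have h1 := hR.2 c (by
        intro x y
        refine le_trans (le_of_eq ?_) (hc x y)
        unfold Game.sat squareGame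
        congr!)
      unfold Sketch.accept at h1
      convert h1

end Pool.Agent.Results.MP_ec946a_lc.LinearSketches
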