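import Pool.Agent.T6.H63.RW.Fin
import Pool.Agent.T6.H63.RW.Ker

/-!
# 2-to-1 games of small value whose refutations have size `2 ^ Ω(N)`

The proof system (`Line`, `Step` in `Pool/Agent/T6/H63/RW/Ref.lean`; `Game`, `Game.Refutation` in
`Pool/Agent/T6/H63/RW/Main.lean`) refutes the statement that a game has value one. A line is a
condition on the labelling: a clause, that is a disjunction of conditions `L v ∈ A v` on the labels
of any number of single vertices, or an arbitrary condition on the labels of at most `t` vertices.
A line may be derived if it follows (semantically) from at most `r` earlier lines and the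
constraints inside a set of at most `t` vertices. For `r = 2`, `t = 2` this simulates resolution for
all encodings of the labels, and with empty clauses it contains local consistency (`t` pebbles).

Theorem. (1) For every `0 < δ < 1` there are an alphabet size `q ≤ (300 / δ) log (2 / δ)` and
`c > 0` such that for all large `N` there is a 2-to-1 game with vertex sets of size `N`, alphabet
`[q]` and at most `q / 2` edges at each vertex of `U`, of value at most `δ`, such that every
refutation with `r t ≤ c N` has at least `2 ^ (c N / r) - 1` lines, and every refutation has a line
of width `w` with `(r + 1) (w + t) + t > c N`. (2) If the constraints at each vertex of `U` have at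
most `k` different kernels and the value is less than `1 / k`, then there is a refutation with
`r = 3`, `t = 2` and at most `2 N + q + 1` lines (`k = 1` for unique games). So for games with `k` kernels at each vertex of `U` the complexity jumps from linear to
exponential between the values `1 / k` and `O((log k) / k)`.

Proof of (1): a label of `u ∈ U` is a pair of `x ∈ ℤ/p` and a bit `j`, and the constraint on the
`i`-th edge at `u` is that the label of `v` is `x - i j + s`, with a shift `s`. On a random graph
sets of linear size are sparse, and by the starting library (`Pool/Agent/H589R3/DT`) there is a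
system of locally consistent labellings of the sets of linear size; the shifts make the value small.
From the system the number of lines is bounded below as in the proof of Ben-Sasson and Wigderson:
a label that satisfies many wide clauses is fixed or, if it is impossible, forbidden.
Proof of (2): label propagation along the edges with the most frequent kernel at their end in `U`.
-/

open scoped Classical
open Finset

namespace Pool.Agent.Results.MP_ec946a_lc.RefutationSize

open Pool.Agent.T6.H63.RW

theorem result :
    (∀ δ : ℝ, 0 < δ → δ < 1 → ∃ q : ℕ, 1 ≤ q ∧ (q : ℝ) ≤ 300 / δ * Real.log (2 / δ) ∧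
      ∃ c : ℝ, 0 < c ∧ ∃ N0 : ℕ, ∀ N : ℕ, N0 ≤ N → ∃ m : ℕ, 1 ≤ m ∧ ∃ G : Game N q m,
      (∀ u, 2 * (univ.filter fun e => G.src e = u).card ≤ q) ∧ G.ValueLe δ ∧
      ∀ (r t s : ℕ) (R : G.Refutation r t s), 1 ≤ r →
        ((r * t : ℝ) ≤ c * N → (2 : ℝ) ^ (c * N / r) ≤ s + 1) ∧
        ∃ i, c * N < (r + 1) * ((R.line i).width + t) + t) ∧
    ∀ (N q m k : ℕ) (G : Game N q m),
      (∀ u, ((univ.filter fun e => G.src e = u).image G.ker).card ≤ k) →
      (∀ L, k * (univ.filter fun e => G.Sat L e).card < m) →
      ∃ s : ℕ, s ≤ 2 * N + q + 1 ∧ Nonempty (G.Refutation 3 2 s) :=
  ⟨main, fun _ _ _ k G => short_of_kernels G k⟩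

end Pool.Agent.Results.MP_ec946a_lc.RefutationSize
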